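import Mathlib

/-!
# Moments of non-Gaussian multiplicative chaos (MP_b1920d_pr): definitions and pieces
-/

set_option autoImplicit false

open MeasureTheory ProbabilityTheory Filter Topology Set
open scoped ENNReal

namespace Pool.Agent.L5helper98.NG

noncomputable section

/-- the unit cube `[0,1]^d` -/
def cube (d : ℕ) : Set (Fin d → ℝ) := Icc 0 1

/-- the partial sums `S_n = X_1 + ... + X_n` (indexed from `0`) -/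
def S {d : ℕ} {Ω : Type} (X : ℕ → Ω → (Fin d → ℝ) → ℝ) (n : ℕ) (o : Ω) (x : Fin d → ℝ) : ℝ :=
  ∑ k ∈ Finset.range n, X k o x

/-- the covariance of `S_n` -/
def Cv {d : ℕ} {Ω : Type} [MeasurableSpace Ω] (P : Measure Ω) (X : ℕ → Ω → (Fin d → ℝ) → ℝ)
    (n : ℕ) (x y : Fin d → ℝ) : ℝ := ∑ k ∈ Finset.range n, ∫ o, X k o x * X k o y ∂P

/-- the σ-algebra generated by the field `X_k` -/
@[reducible] def sg {d : ℕ} {Ω : Type} (X : ℕ → Ω → (Fin d → ℝ) → ℝ) (k : ℕ) : MeasurableSpace Ω :=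
  ⨆ x : Fin d → ℝ, MeasurableSpace.comap (fun o => X k o x) inferInstance

/-- The assumptions on the fields. `(a)` is `var_infty`, `cov_diag`, `cov`; `(b)` is `third`; `(d)`
is `expo`. The sup norm is used (the conditions do not depend on the norm). -/
structure Fields {d : ℕ} {Ω : Type} [MeasurableSpace Ω] (P : Measure Ω)
    (X : ℕ → Ω → (Fin d → ℝ) → ℝ) : Prop where
  meas : ∀ k x, Measurable (fun o => X k o x)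
  cont : ∀ k o, Continuous (X k o)
  indep : iIndep (sg X) P
  mean : ∀ k, ∀ x ∈ cube d, ∫ o, X k o x ∂P = 0
  var_infty : Tendsto (fun n => Cv P X n 0 0) atTop atTop
  cov_diag : ∃ C : ℝ, ∀ n : ℕ, ∀ x ∈ cube d, |Cv P X n x x - Cv P X n 0 0| ≤ C
  cov : ∃ δ C : ℝ, 0 < δ ∧ ∀ n : ℕ, ∀ x ∈ cube d, ∀ y ∈ cube d, x ≠ y → ‖x - y‖ ≤ δ →
    |Cv P X n x y - min (Real.log (1 / ‖x - y‖)) (Cv P X n 0 0)| ≤ C
  third : ∃ e B : ℝ, 0 < e ∧ ∀ n : ℕ, ∀ x ∈ cube d,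
    ∑ k ∈ Finset.range n, (∫ o, |X k o x| ^ (3 + e) ∂P) ^ (3 / (3 + e)) ≤ B
  expo : ∀ a : ℝ, ∃ B : ℝ, ∀ k, ∀ x ∈ cube d,
    Integrable (fun o => Real.exp (a * X k o x)) P ∧ ∫ o, Real.exp (a * X k o x) ∂P ≤ B

/-- `E e^{β S_n(x)}` -/
def Zf {d : ℕ} {Ω : Type} [MeasurableSpace Ω] (P : Measure Ω) (X : ℕ → Ω → (Fin d → ℝ) → ℝ)
    (β : ℝ) (n : ℕ) (x : Fin d → ℝ) : ℝ := ∫ o, Real.exp (β * S X n o x) ∂P

/-- `μ_n(A; β)` -/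
def mass {d : ℕ} {Ω : Type} [MeasurableSpace Ω] (P : Measure Ω) (X : ℕ → Ω → (Fin d → ℝ) → ℝ)
    (β : ℝ) (A : Set (Fin d → ℝ)) (n : ℕ) (o : Ω) : ℝ :=
  ∫ x in A, Real.exp (β * S X n o x) / Zf P X β n x

/-- `M` is the total mass: the almost sure and `L¹` limit of `μ_n(I; β)` -/
structure IsMass {d : ℕ} {Ω : Type} [MeasurableSpace Ω] (P : Measure Ω)
    (X : ℕ → Ω → (Fin d → ℝ) → ℝ) (β : ℝ) (M : Ω → ℝ) : Prop where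
  meas : Measurable M
  as : ∀ᵐ o ∂P, Tendsto (fun n => mass P X β (cube d) n o) atTop (𝓝 (M o))
  l1 : Tendsto (fun n => ∫⁻ o, ENNReal.ofReal |mass P X β (cube d) n o - M o| ∂P) atTop (𝓝 0)

/-! ### The pieces -/

/-- ONE: one step -/
def St_ONE : Prop := ∀ (d : ℕ) (e L : ℝ) (B : ℝ → ℝ), 0 < e → 0 ≤ L → ∃ C : ℝ, 0 ≤ C ∧
  ∀ (Ω : Type) [MeasurableSpace Ω] (P : Measure Ω) [IsProbabilityMeasure P]
    (X : Ω → (Fin d → ℝ) → ℝ), (∀ x, Measurable (fun o => X o x)) → (∀ o, Continuous (X o)) →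
    (∀ x ∈ cube d, ∫ o, X o x ∂P = 0) →
    (∀ a : ℝ, ∀ x ∈ cube d, Integrable (fun o => Real.exp (a * X o x)) P ∧
      ∫ o, Real.exp (a * X o x) ∂P ≤ B a) →
  ∀ (ρ : Measure (Fin d → ℝ)), ρ (cube d)ᶜ = 0 → ρ univ ≤ ENNReal.ofReal L →
    Integrable (fun o => Real.exp (∫ x, X o x ∂ρ)) P ∧
    |Real.log (∫ o, Real.exp (∫ x, X o x ∂ρ) ∂P) - (1 / 2) * ∫ x, ∫ y, (∫ o, X o x * X o y ∂P)
      ∂ρ ∂ρ| ≤ C * ∫ x, (∫ o, |X o x| ^ (3 + e) ∂P) ^ (3 / (3 + e)) ∂ρ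

/-- MG: two sided bounds of exponential moments -/
def St_MG : Prop := ∀ (d : ℕ) (Ω : Type) [MeasurableSpace Ω] (P : Measure Ω)
  [IsProbabilityMeasure P] (X : ℕ → Ω → (Fin d → ℝ) → ℝ), Fields P X → ∀ L : ℝ, 0 ≤ L →
  ∃ C : ℝ, 0 ≤ C ∧ ∀ (n : ℕ) (ρ : Measure (Fin d → ℝ)), ρ (cube d)ᶜ = 0 →
    ρ univ ≤ ENNReal.ofReal L →
    Integrable (fun o => Real.exp (∫ x, S X n o x ∂ρ)) P ∧
    Real.exp ((1 / 2) * (∫ x, ∫ y, Cv P X n x y ∂ρ ∂ρ) - C) ≤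
      ∫ o, Real.exp (∫ x, S X n o x ∂ρ) ∂P ∧
    ∫ o, Real.exp (∫ x, S X n o x ∂ρ) ∂P ≤ Real.exp ((1 / 2) * (∫ x, ∫ y, Cv P X n x y ∂ρ ∂ρ) + C)

/-- ZB: the normalisation -/
def St_ZB : Prop := ∀ (d : ℕ) (Ω : Type) [MeasurableSpace Ω] (P : Measure Ω)
  [IsProbabilityMeasure P] (X : ℕ → Ω → (Fin d → ℝ) → ℝ), Fields P X → ∀ β : ℝ, 0 < β →
  (∀ n, Measurable (Zf P X β n)) ∧ ∃ C : ℝ, 0 ≤ C ∧ ∀ n : ℕ, ∀ x ∈ cube d,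
    Integrable (fun o => Real.exp (β * S X n o x)) P ∧
    Real.exp (β ^ 2 * Cv P X n 0 0 / 2 - C) ≤ Zf P X β n x ∧
    Zf P X β n x ≤ Real.exp (β ^ 2 * Cv P X n 0 0 / 2 + C)

/-- MAS: the masses are a.s. finite integrals, jointly measurable -/
def St_MAS : Prop := ∀ (d : ℕ) (Ω : Type) [MeasurableSpace Ω] (P : Measure Ω)
  [IsProbabilityMeasure P] (X : ℕ → Ω → (Fin d → ℝ) → ℝ), Fields P X → ∀ β : ℝ, 0 < β →
  ∀ A : Set (Fin d → ℝ), MeasurableSet A → A ⊆ cube d → ∀ n : ℕ,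
  Measurable (mass P X β A n) ∧ (∀ o, 0 ≤ mass P X β A n o) ∧
  (∀ o, IntegrableOn (fun x => Real.exp (β * S X n o x) / Zf P X β n x) A) ∧
  ∫⁻ o, ENNReal.ofReal (mass P X β A n o) ∂P = volume A

/-- MOMF: integer moments of the masses -/
def St_MOMF : Prop := ∀ (d : ℕ) (Ω : Type) [MeasurableSpace Ω] (P : Measure Ω)
  [IsProbabilityMeasure P] (X : ℕ → Ω → (Fin d → ℝ) → ℝ), Fields P X → ∀ β : ℝ, 0 < β →
  ∀ A : Set (Fin d → ℝ), MeasurableSet A → A ⊆ cube d → ∀ n m : ℕ,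
  ∫⁻ o, ENNReal.ofReal (mass P X β A n o) ^ m ∂P =
    ∫⁻ x : Fin m → Fin d → ℝ in Set.pi univ (fun _ => A),
      ENNReal.ofReal ((∫ o, Real.exp (β * ∑ i, S X n o (x i)) ∂P) / ∏ i, Zf P X β n (x i))

/-- KB: two sided bound of the correlation -/
def St_KB : Prop := ∀ (d : ℕ) (Ω : Type) [MeasurableSpace Ω] (P : Measure Ω)
  [IsProbabilityMeasure P] (X : ℕ → Ω → (Fin d → ℝ) → ℝ), Fields P X → ∀ β : ℝ, 0 < β →
  ∀ m : ℕ, ∃ δ C : ℝ, 0 < δ ∧ 0 ≤ C ∧ ∀ (n : ℕ) (x : Fin m → Fin d → ℝ), (∀ i, x i ∈ cube d) →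
  (∀ i j, i ≠ j → x i ≠ x j) → (∀ i j, ‖x i - x j‖ ≤ δ) →
  Real.exp (β ^ 2 * (∑ i, ∑ j ∈ Finset.univ.filter (fun j => i < j),
      min (Real.log (1 / ‖x i - x j‖)) (Cv P X n 0 0)) - C) ≤
    (∫ o, Real.exp (β * ∑ i, S X n o (x i)) ∂P) / ∏ i, Zf P X β n (x i) ∧
  (∫ o, Real.exp (β * ∑ i, S X n o (x i)) ∂P) / ∏ i, Zf P X β n (x i) ≤
    Real.exp (β ^ 2 * (∑ i, ∑ j ∈ Finset.univ.filter (fun j => i < j),
      min (Real.log (1 / ‖x i - x j‖)) (Cv P X n 0 0)) + C)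

/-- SELF: finiteness of the Selberg type integral -/
def St_SELF : Prop := ∀ (d m : ℕ) (a : ℝ), 0 < d → 0 < a → a * m < 2 * d →
  ∫⁻ x : Fin m → Fin d → ℝ in Set.pi univ (fun _ => cube d),
    ENNReal.ofReal (∏ i, ∏ j ∈ Finset.univ.filter (fun j => i < j), ‖x i - x j‖ ^ (-a)) < ∞

/-- SELI: the Selberg type integral is infinite, also near one point -/
def St_SELI : Prop := ∀ (d m : ℕ) (a r : ℝ), 0 < d → 2 ≤ m → 0 < a → 2 * d ≤ a * m → 0 < r →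
  r ≤ 1 →
  ∫⁻ x : Fin m → Fin d → ℝ in Set.pi univ (fun _ => Icc 0 (fun _ => r)),
    ENNReal.ofReal (∏ i, ∏ j ∈ Finset.univ.filter (fun j => i < j), ‖x i - x j‖ ^ (-a)) = ∞

/-- UPI: integer moments below the threshold are bounded -/
def St_UPI : Prop := ∀ (d : ℕ) (Ω : Type) [MeasurableSpace Ω] (P : Measure Ω)
  [IsProbabilityMeasure P] (X : ℕ → Ω → (Fin d → ℝ) → ℝ), 0 < d → Fields P X → ∀ β : ℝ, 0 < β →
  ∀ m : ℕ, 1 ≤ m → β ^ 2 * m < 2 * d →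
  ∃ B : ℝ≥0∞, B < ∞ ∧ ∀ n, ∫⁻ o, ENNReal.ofReal (mass P X β (cube d) n o) ^ m ∂P ≤ B

/-- LOI: integer moments at and above the threshold are unbounded -/
def St_LOI : Prop := ∀ (d : ℕ) (Ω : Type) [MeasurableSpace Ω] (P : Measure Ω)
  [IsProbabilityMeasure P] (X : ℕ → Ω → (Fin d → ℝ) → ℝ), 0 < d → Fields P X → ∀ β : ℝ, 0 < β →
  ∀ m : ℕ, 2 ≤ m → 2 * d ≤ β ^ 2 * m → ∀ B : ℝ≥0∞, B < ∞ →
  ∃ n, B ≤ ∫⁻ o, ENNReal.ofReal (mass P X β (cube d) n o) ^ m ∂P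

/-- QB: moments of the mass of a small cube -/
def St_QB : Prop := ∀ (d : ℕ) (Ω : Type) [MeasurableSpace Ω] (P : Measure Ω)
  [IsProbabilityMeasure P] (X : ℕ → Ω → (Fin d → ℝ) → ℝ), 0 < d → Fields P X → ∀ β p : ℝ, 0 < β →
  1 ≤ p → ∃ δ C : ℝ, 0 < δ ∧ ∀ (n : ℕ) (a : Fin d → ℝ) (r : ℝ), 0 < r → r ≤ δ →
  Cv P X n 0 0 ≤ Real.log (1 / r) → Icc a (a + fun _ => r) ⊆ cube d →
  ENNReal.ofReal (r ^ (d * p) * Real.exp (β ^ 2 * (p ^ 2 - p) / 2 * Cv P X n 0 0 - C)) ≤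
    ∫⁻ o, ENNReal.ofReal (mass P X β (Icc a (a + fun _ => r)) n o ^ p) ∂P

/-- LOR: real moments above the threshold are unbounded -/
def St_LOR : Prop := ∀ (d : ℕ) (Ω : Type) [MeasurableSpace Ω] (P : Measure Ω)
  [IsProbabilityMeasure P] (X : ℕ → Ω → (Fin d → ℝ) → ℝ), 0 < d → Fields P X → ∀ β p : ℝ, 0 < β →
  1 < p → 2 * d < β ^ 2 * p → ∀ B : ℝ≥0∞, B < ∞ →
  ∃ n, B ≤ ∫⁻ o, ENNReal.ofReal (mass P X β (cube d) n o ^ p) ∂P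

/-- SUB: moments of the masses are at most those of the limit -/
def St_SUB : Prop := ∀ (d : ℕ) (Ω : Type) [MeasurableSpace Ω] (P : Measure Ω)
  [IsProbabilityMeasure P] (X : ℕ → Ω → (Fin d → ℝ) → ℝ), 0 < d → Fields P X → ∀ β p : ℝ, 0 < β →
  1 ≤ p → ∀ M : Ω → ℝ, IsMass P X β M → ∀ n,
  ∫⁻ o, ENNReal.ofReal (mass P X β (cube d) n o ^ p) ∂P ≤ ∫⁻ o, ENNReal.ofReal (M o ^ p) ∂P

/-- CVX: the masses are a martingale, in the form used for SUB -/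
def St_CVX : Prop := ∀ (d : ℕ) (Ω : Type) [MeasurableSpace Ω] (P : Measure Ω)
  [IsProbabilityMeasure P] (X : ℕ → Ω → (Fin d → ℝ) → ℝ), Fields P X → ∀ β : ℝ, 0 < β →
  ∀ φ : ℝ → ℝ, ConvexOn ℝ univ φ → (∀ x, 0 ≤ φ x) → (∃ K : ℝ, ∀ x y, |φ x - φ y| ≤ K * |x - y|) →
  ∀ n m : ℕ, n ≤ m →
  ∫ o, φ (mass P X β (cube d) n o) ∂P ≤ ∫ o, φ (mass P X β (cube d) m o) ∂P

end

end Pool.Agent.L5helper98.NG
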